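import Pool.Agent.Lib.MP_39c2b7_co.Interfaces

/-!
# Strong arboricity: module REGION (innermost regions exist)
-/

namespace StrongArb.H48

variable {V : Type} {G : SimpleGraph V}

/-! ## Explicit induced cycles of length four and five -/

theorem ind4_iff (a b c d : V) : IsIndCycle G [a, b, c, d] ↔
    (G.Adj a b ∧ G.Adj b c ∧ G.Adj c d ∧ G.Adj d a ∧ ¬ G.Adj a c ∧ ¬ G.Adj b d ∧
      a ≠ c ∧ b ≠ d) := by
  constructor
  · intro h
    have hn := h.nodup
    have h01 := h.adj 0 1 (by simp) (by simp)
    have h12 := h.adj 1 2 (by simp) (by simp)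
    have h23 := h.adj 2 3 (by simp) (by simp)
    have h30 := h.adj 3 0 (by simp) (by simp)
    have h02 := h.adj 0 2 (by simp) (by simp)
    have h13 := h.adj 1 3 (by simp) (by simp)
    simp [CycAdj] at h01 h12 h23 h30 h02 h13
    simp at hn
    refine ⟨h01, h12, h23, h30, h02, h13, by tauto, by tauto⟩
  · rintro ⟨h1, h2, h3, h4, h5, h6, h7, h8⟩
    have e1 := h1.symm
    have e2 := h2.symm
    have e3 := h3.symm
    have e4 := h4.symm
    have e5 : ¬ G.Adj c a := fun h => h5 h.symm
    have e6 : ¬ G.Adj d b := fun h => h6 h.symm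
    refine ⟨?_, by simp, ?_⟩
    · simp [h1.ne, h2.ne, h3.ne, h4.ne.symm, h7, h8]
    · intro i j hi hj
      simp at hi hj
      interval_cases i <;> interval_cases j <;> simp [CycAdj, *]

theorem ind5_iff (a b c d e : V) : IsIndCycle G [a, b, c, d, e] ↔
    (G.Adj a b ∧ G.Adj b c ∧ G.Adj c d ∧ G.Adj d e ∧ G.Adj e a ∧
      ¬ G.Adj a c ∧ ¬ G.Adj a d ∧ ¬ G.Adj b d ∧ ¬ G.Adj b e ∧ ¬ G.Adj c e ∧
      a ≠ c ∧ a ≠ d ∧ b ≠ d ∧ b ≠ e ∧ c ≠ e) := by
  constructor
  · intro h
    have hn := h.nodup
    have h01 := h.adj 0 1 (by simp) (by simp)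
    have h12 := h.adj 1 2 (by simp) (by simp)
    have h23 := h.adj 2 3 (by simp) (by simp)
    have h34 := h.adj 3 4 (by simp) (by simp)
    have h40 := h.adj 4 0 (by simp) (by simp)
    have h02 := h.adj 0 2 (by simp) (by simp)
    have h03 := h.adj 0 3 (by simp) (by simp)
    have h13 := h.adj 1 3 (by simp) (by simp)
    have h14 := h.adj 1 4 (by simp) (by simp)
    have h24 := h.adj 2 4 (by simp) (by simp)
    simp [CycAdj] at h01 h12 h23 h34 h40 h02 h03 h13 h14 h24
    simp at hn
    refine ⟨h01, h12, h23, h34, h40, h02, h03, h13, h14, h24, ?_, ?_, ?_, ?_, ?_⟩ <;> tauto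
  · rintro ⟨h1, h2, h3, h4, h5, h6, h7, h8, h9, h10, h11, h12, h13, h14, h15⟩
    have e1 := h1.symm
    have e2 := h2.symm
    have e3 := h3.symm
    have e4 := h4.symm
    have e5 := h5.symm
    have e6 : ¬ G.Adj c a := fun h => h6 h.symm
    have e7 : ¬ G.Adj d a := fun h => h7 h.symm
    have e8 : ¬ G.Adj d b := fun h => h8 h.symm
    have e9 : ¬ G.Adj e b := fun h => h9 h.symm
    have e10 : ¬ G.Adj e c := fun h => h10 h.symm
    refine ⟨?_, by simp, ?_⟩
    · simp [h1.ne, h2.ne, h3.ne, h4.ne, h5.ne.symm, h11, h12, h13, h14, h15]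
    · intro i j hi hj
      simp at hi hj
      interval_cases i <;> interval_cases j <;> simp [CycAdj, *]

/-! ## Rotating an induced cycle to a given first vertex -/

theorem rot4 {C : List V} (h : IsIndCycle G C) (hl : C.length = 4) {z : V} (hz : z ∈ C) :
    ∃ a c b, IsIndCycle G [z, a, c, b] ∧ ∀ x, x ∈ C ↔ (x = z ∨ x = a ∨ x = c ∨ x = b) := by
  obtain ⟨c0, c1, c2, c3, rfl⟩ : ∃ c0 c1 c2 c3, C = [c0, c1, c2, c3] := by
    match C, hl with
    | [c0, c1, c2, c3], _ => exact ⟨c0, c1, c2, c3, rfl⟩
  rw [ind4_iff] at h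
  obtain ⟨h1, h2, h3, h4, h5, h6, h7, h8⟩ := h
  simp only [List.mem_cons, List.not_mem_nil, or_false] at hz
  rcases hz with rfl | rfl | rfl | rfl
  · exact ⟨c1, c2, c3, (ind4_iff _ _ _ _).2 ⟨h1, h2, h3, h4, h5, h6, h7, h8⟩, by simp⟩
  · exact ⟨c2, c3, c0, (ind4_iff _ _ _ _).2 ⟨h2, h3, h4, h1, h6, fun h => h5 h.symm, h8, h7.symm⟩,
      by intro x; simp; tauto⟩
  · exact ⟨c3, c0, c1, (ind4_iff _ _ _ _).2 ⟨h3, h4, h1, h2, fun h => h5 h.symm,
      fun h => h6 h.symm, h7.symm, h8.symm⟩, by intro x; simp; tauto⟩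
  · exact ⟨c0, c1, c2, (ind4_iff _ _ _ _).2 ⟨h4, h1, h2, h3, fun h => h6 h.symm, h5, h8.symm, h7⟩,
      by intro x; simp; tauto⟩

theorem rot5 {C : List V} (h : IsIndCycle G C) (hl : C.length = 5) {z : V} (hz : z ∈ C) :
    ∃ a c d b, IsIndCycle G [z, a, c, d, b] ∧
      ∀ x, x ∈ C ↔ (x = z ∨ x = a ∨ x = c ∨ x = d ∨ x = b) := by
  obtain ⟨c0, c1, c2, c3, c4, rfl⟩ : ∃ c0 c1 c2 c3 c4, C = [c0, c1, c2, c3, c4] := by
    match C, hl with
    | [c0, c1, c2, c3, c4], _ => exact ⟨c0, c1, c2, c3, c4, rfl⟩
  rw [ind5_iff] at h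
  obtain ⟨h1, h2, h3, h4, h5, h6, h7, h8, h9, h10, h11, h12, h13, h14, h15⟩ := h
  have g6 : ¬ G.Adj c2 c0 := fun h => h6 h.symm
  have g7 : ¬ G.Adj c3 c0 := fun h => h7 h.symm
  have g8 : ¬ G.Adj c3 c1 := fun h => h8 h.symm
  have g9 : ¬ G.Adj c4 c1 := fun h => h9 h.symm
  have g10 : ¬ G.Adj c4 c2 := fun h => h10 h.symm
  simp only [List.mem_cons, List.not_mem_nil, or_false] at hz
  rcases hz with rfl | rfl | rfl | rfl | rfl
  · exact ⟨c1, c2, c3, c4, (ind5_iff _ _ _ _ _).2
      ⟨h1, h2, h3, h4, h5, h6, h7, h8, h9, h10, h11, h12, h13, h14, h15⟩, by simp⟩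
  · exact ⟨c2, c3, c4, c0, (ind5_iff _ _ _ _ _).2
      ⟨h2, h3, h4, h5, h1, h8, h9, h10, g6, g7, h13, h14, h15, h11.symm, h12.symm⟩,
      by intro x; simp; tauto⟩
  · exact ⟨c3, c4, c0, c1, (ind5_iff _ _ _ _ _).2
      ⟨h3, h4, h5, h1, h2, h10, g6, g7, g8, g9, h15, h11.symm, h12.symm, h13.symm, h14.symm⟩,
      by intro x; simp; tauto⟩
  · exact ⟨c4, c0, c1, c2, (ind5_iff _ _ _ _ _).2
      ⟨h4, h5, h1, h2, h3, g7, g8, g9, g10, h6, h12.symm, h13.symm, h14.symm, h15.symm, h11⟩,
      by intro x; simp; tauto⟩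
  · exact ⟨c0, c1, c2, c3, (ind5_iff _ _ _ _ _).2
      ⟨h5, h1, h2, h3, h4, g9, g10, h6, h7, h8, h14.symm, h15.symm, h11, h12, h13⟩,
      by intro x; simp; tauto⟩

/-! ## Closed walks of length four and five in links -/

theorem closed4 (L : LinkApi) (hlink : ∀ v, ∃ l, IsLink G v l) {v a b c d : V}
    (ha : G.Adj v a) (hb : G.Adj v b) (hc : G.Adj v c) (hd : G.Adj v d)
    (h1 : G.Adj a b) (h2 : G.Adj b c) (h3 : G.Adj c d) (h4 : G.Adj d a)
    (hac : a ≠ c) (hbd : b ≠ d) : IsLink G v [a, b, c, d] := by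
  obtain ⟨l, hl⟩ := hlink v
  refine L.closed V G v l _ hl ?_ (by simp) ?_ ?_
  · simp [h1.ne, h2.ne, h3.ne, h4.ne.symm, hac, hbd]
  · intro x hx
    simp at hx
    rcases hx with rfl | rfl | rfl | rfl <;> assumption
  · intro i hi
    simp at hi
    interval_cases i <;> simp <;> assumption

theorem closed5 (L : LinkApi) (hlink : ∀ v, ∃ l, IsLink G v l) {v a b c d e : V}
    (ha : G.Adj v a) (hb : G.Adj v b) (hc : G.Adj v c) (hd : G.Adj v d) (he : G.Adj v e)
    (h1 : G.Adj a b) (h2 : G.Adj b c) (h3 : G.Adj c d) (h4 : G.Adj d e) (h5 : G.Adj e a)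
    (hac : a ≠ c) (had : a ≠ d) (hbd : b ≠ d) (hbe : b ≠ e) (hce : c ≠ e) :
    IsLink G v [a, b, c, d, e] := by
  obtain ⟨l, hl⟩ := hlink v
  refine L.closed V G v l _ hl ?_ (by simp) ?_ ?_
  · simp [h1.ne, h2.ne, h3.ne, h4.ne, h5.ne.symm, hac, had, hbd, hbe, hce]
  · intro x hx
    simp at hx
    rcases hx with rfl | rfl | rfl | rfl | rfl <;> assumption
  · intro i hi
    simp at hi
    interval_cases i <;> simp <;> assumption

/-! ## Sides -/

theorem sides_symm {C : List V} {X Y : Set V} (h : Sides G C X Y) : Sides G C Y X where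
  connX := h.connY
  connY := h.connX
  cover v := by
    rcases h.cover v with h | h | h <;> tauto
  disjX := h.disjY
  disjY := h.disjX
  disj v hv hx := h.disj v hx hv
  sep x hx y hy hxy := h.sep y hy x hx hxy.symm
  attX := h.attY
  attY := h.attX
  apexX := h.apexY
  apexY := h.apexX

theorem conn_prop {Y : Set V} (hY : (G.induce Y).Connected) (P : V → Prop)
    (hstep : ∀ a ∈ Y, ∀ b ∈ Y, G.Adj a b → P a → P b) {y0 : V} (h0 : y0 ∈ Y) (hP : P y0) :
    ∀ y ∈ Y, P y := by
  intro y hy
  have key : ∀ (a b : Y) (_ : (G.induce Y).Walk a b), P a → P b := by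
    intro a b w
    induction w with
    | nil => exact id
    | cons h p ih => exact fun ha => ih (hstep _ (Subtype.coe_prop _) _ (Subtype.coe_prop _) h ha)
  obtain ⟨w⟩ := hY.preconnected ⟨y0, h0⟩ ⟨y, hy⟩
  exact key _ _ w hP

theorem conn_side {C' : List V} {X' Y' : Set V} (hS : Sides G C' X' Y') {Y : Set V}
    (hY : (G.induce Y).Connected) (hd : ∀ y ∈ Y, y ∉ C') :
    (∀ y ∈ Y, y ∈ X') ∨ (∀ y ∈ Y, y ∈ Y') := by
  obtain ⟨y0, h0⟩ := hY.nonempty
  have hstep : ∀ {A B : Set V}, Sides G C' A B →
      ∀ a ∈ Y, ∀ b ∈ Y, G.Adj a b → a ∈ A → b ∈ A := by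
    intro A B hAB a _ b hb hab haA
    rcases hAB.cover b with h | h | h
    · exact absurd h (hd b hb)
    · exact h
    · exact absurd hab (hAB.sep a haA b h)
  rcases hS.cover y0 with h | h | h
  · exact absurd h (hd y0 h0)
  · exact Or.inl (conn_prop hY (· ∈ X') (hstep hS) h0 h)
  · exact Or.inr (conn_prop hY (· ∈ Y') (hstep (sides_symm hS)) h0 h)

theorem chain_side {C : List V} {X Y : Set V} (hS : Sides G C X Y) :
    ∀ l : List V, l.IsChain G.Adj → (∀ v ∈ l, v ∈ X ∨ v ∈ Y) →
      (∀ v ∈ l, v ∈ X) ∨ (∀ v ∈ l, v ∈ Y) := by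
  intro l
  induction l with
  | nil => intro _ _; left; simp
  | cons a t ih =>
    intro hc hm
    cases t with
    | nil =>
      rcases hm a (by simp) with h | h
      · left; simpa using h
      · right; simpa using h
    | cons b t =>
      rw [List.isChain_cons_cons] at hc
      rcases ih hc.2 (fun v hv => hm v (List.mem_cons_of_mem _ hv)) with h | h
      · left
        intro v hv
        rcases List.mem_cons.1 hv with rfl | hv
        · rcases hm v (by simp) with h' | h'
          · exact h'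
          · exact absurd hc.1.symm (hS.sep b (h b (by simp)) v h')
        · exact h v hv
      · right
        intro v hv
        rcases List.mem_cons.1 hv with rfl | hv
        · rcases hm v (by simp) with h' | h'
          · exact absurd hc.1 (hS.sep v h' b (h b (by simp)))
          · exact h'
        · exact h v hv

/-- the two neighbours on the cycle -/
theorem cyc_nbrs {C : List V} (h : IsIndCycle G C) (hl : C.length ≤ 5) {z : V} (hz : z ∈ C) :
    ∃ a b, a ∈ C ∧ b ∈ C ∧ G.Adj z a ∧ G.Adj z b ∧ ∀ x ∈ C, G.Adj z x → x = a ∨ x = b := by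
  have h4 := h.len
  rcases (by omega : C.length = 4 ∨ C.length = 5) with h' | h'
  · obtain ⟨a, c, b, hi, hm⟩ := rot4 h h' hz
    rw [ind4_iff] at hi
    obtain ⟨h1, h2, h3, h4, h5, h6, h7, h8⟩ := hi
    refine ⟨a, b, (hm a).2 (by simp), (hm b).2 (by simp), h1, h4.symm, ?_⟩
    intro x hx hzx
    rcases (hm x).1 hx with rfl | rfl | rfl | rfl
    · exact absurd hzx (G.loopless.irrefl _)
    · exact Or.inl rfl
    · exact absurd hzx h5
    · exact Or.inr rfl
  · obtain ⟨a, c, d, b, hi, hm⟩ := rot5 h h' hz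
    rw [ind5_iff] at hi
    obtain ⟨h1, h2, h3, h4, h5, h6, h7, h8, h9, h10, h11, h12, h13, h14, h15⟩ := hi
    refine ⟨a, b, (hm a).2 (by simp), (hm b).2 (by simp), h1, h5.symm, ?_⟩
    intro x hx hzx
    rcases (hm x).1 hx with rfl | rfl | rfl | rfl | rfl
    · exact absurd hzx (G.loopless.irrefl _)
    · exact Or.inl rfl
    · exact absurd hzx h6
    · exact absurd hzx h7
    · exact Or.inr rfl

/-! ## The minimal choice -/

/-- a side of an induced cycle of length at most five with at least two vertices, smallest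
possible -/
structure MinSide (G : SimpleGraph V) (C : List V) (X Y : Set V) : Prop where
  cyc : IsIndCycle G C
  len : C.length ≤ 5
  sides : Sides G C X Y
  two : 2 ≤ X.ncard
  min : ∀ (C' : List V) (X' Y' : Set V), IsIndCycle G C' → C'.length ≤ 5 → Sides G C' X' Y' →
    2 ≤ X'.ncard → X.ncard ≤ X'.ncard

theorem small_of_min (hsep : SeparationStatement) (hM : MinCE G) {C : List V} {X Y : Set V}
    (h : MinSide G C X Y) (C' : List V) (hC' : IsIndCycle G C') (h5 : C'.length ≤ 5)
    (hsub : ∀ x ∈ C', x ∈ X ∨ x ∈ C) (hmeet : ∃ x ∈ C', x ∈ X) : ∃ w ∈ X, IsLink G w C' := by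
  have := hM.fin
  obtain ⟨x0, hx0, hx0X⟩ := hmeet
  have hS := h.sides
  have hYC' : ∀ y ∈ Y, y ∉ C' := by
    intro y hy hyC
    rcases hsub y hyC with h | h
    · exact hS.disj y h hy
    · exact hS.disjY y hy h
  obtain ⟨X', Y', hS', hYY⟩ : ∃ X' Y', Sides G C' X' Y' ∧ ∀ y ∈ Y, y ∈ Y' := by
    obtain ⟨X', Y', hS'⟩ := hsep V G hM C' hC'
    rcases conn_side hS' hS.connY hYC' with h | h
    · exact ⟨Y', X', sides_symm hS', h⟩
    · exact ⟨X', Y', hS', h⟩
  have hC1 : ∀ z ∈ C, z ∉ C' → z ∈ Y' := by
    intro z hz hzC'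
    obtain ⟨y, hy, hzy⟩ := hS.attY z hz
    rcases hS'.cover z with h | h | h
    · exact absurd h hzC'
    · exact absurd hzy (hS'.sep z h y (hYY y hy))
    · exact h
  have hX'X : ∀ x ∈ X', x ∈ X := by
    intro x hx
    rcases hS.cover x with h | h | h
    · exact absurd (hC1 x h (hS'.disjX x hx)) (hS'.disj x hx)
    · exact h
    · exact absurd (hYY x h) (hS'.disj x hx)
  have hlt : X'.ncard < X.ncard := by
    refine Set.ncard_lt_ncard ⟨hX'X, ?_⟩ (Set.toFinite _)
    intro hle
    exact hS'.disjX x0 (hle hx0X) hx0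
  have h2 : X'.ncard < 2 := by
    by_contra hcon
    have := h.min C' X' Y' hC' h5 hS' (by omega)
    omega
  obtain ⟨w, hw⟩ := hS'.connX.nonempty
  have h1 : ∀ x ∈ X', x = w := by
    have := (Set.ncard_le_one (Set.toFinite X')).1 (by omega)
    exact fun x hx => this x hx w hw
  refine ⟨w, hX'X w hw, { toIsIndCycle := hC', mem := ?_ }⟩
  intro x
  constructor
  · intro hx
    obtain ⟨x', hx', hadj⟩ := hS'.attX x hx
    rw [h1 x' hx'] at hadj
    exact hadj.symm
  · intro hwx
    rcases hS'.cover x with h | h | h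
    · exact h
    · rw [h1 x h] at hwx
      exact absurd hwx (G.loopless.irrefl _)
    · exact absurd hwx (hS'.sep w hw x h)

theorem not_all_in_C (hM : MinCE G) {C : List V} {X Y : Set V}
    (h : MinSide G C X Y) {t : V} (ht : t ∈ X) (hC : ∀ x, G.Adj t x → x ∈ C) : False := by
  have := hM.fin
  have hS := h.sides
  have : ∀ y ∈ X, y = t := by
    refine conn_prop hS.connX (fun y => y = t) ?_ ht rfl
    intro a _ b hb hab hat
    subst hat
    exact absurd (hC b hab) (hS.disjX b hb)
  have h1 : X.ncard ≤ 1 := by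
    rw [Set.ncard_le_one (Set.toFinite X)]
    intro a ha b hb
    rw [this a ha, this b hb]
  have := h.two
  omega

theorem link_dg (L : LinkApi) {v : V} {l : List V} (h : IsLink G v l) {n : ℕ}
    (hn : l.length = n) : dg G v = n := by
  rw [L.dg V G v l h, hn]

theorem inner_of_min (hsep : SeparationStatement) (L : LinkApi) (h44 : No44Statement)
    (h45 : No45Statement) (hM : MinCE G) {C : List V} {X Y : Set V}
    (h : MinSide G C X Y) : ∀ z ∈ C, 2 ≤ dgIn G X z := by
  have := hM.fin
  intro z hz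
  by_contra hcon
  have hS := h.sides
  obtain ⟨t, ht, hzt⟩ := hS.attX z hz
  have huniq : ∀ t' ∈ X, G.Adj z t' → t' = t := by
    have h1 : ({x | x ∈ X ∧ G.Adj z x} : Set V).ncard ≤ 1 := by
      unfold dgIn at hcon
      omega
    have h2 := (Set.ncard_le_one (Set.toFinite _)).1 h1
    exact fun t' ht' hz' => h2 t' ⟨ht', hz'⟩ t ⟨ht, hzt⟩
  have hapex : ∀ a ∈ C, G.Adj z a → G.Adj t a := by
    intro a ha hza
    obtain ⟨x, hx, hxz, hxa⟩ := hS.apexX z hz a ha hza
    rw [huniq x hx hxz.symm] at hxa
    exact hxa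
  have h4 := h.cyc.len
  have h5 := h.len
  have htC : t ∉ C := hS.disjX t ht
  rcases (by omega : C.length = 4 ∨ C.length = 5) with h' | h'
  · obtain ⟨a, c, b, hi, hm⟩ := rot4 h.cyc h' hz
    rw [ind4_iff] at hi
    obtain ⟨h1, h2, h3, h4, h5, h6, h7, h8⟩ := hi
    have haC : a ∈ C := (hm a).2 (by simp)
    have hcC : c ∈ C := (hm c).2 (by simp)
    have hbC : b ∈ C := (hm b).2 (by simp)
    have hta := hapex a haC h1
    have htb := hapex b hbC h4.symm
    have htc' : t ≠ c := fun h => htC (h ▸ hcC)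
    by_cases htc : G.Adj t c
    · have hl := closed4 L hM.link hzt.symm hta htc htb h1 h2 h3 h4 h7 h8
      refine not_all_in_C hM h ht ?_
      intro x hx
      have := (hl.mem x).2 hx
      simp at this
      exact (hm x).2 this
    · obtain ⟨w, hw, hwl⟩ := small_of_min hsep hM h [t, a, c, b]
        ((ind4_iff _ _ _ _).2 ⟨hta, h2, h3, htb.symm, htc, h6, htc', h8⟩) (by simp)
        (by
          intro x hx
          simp at hx
          rcases hx with rfl | rfl | rfl | rfl
          · exact Or.inl ht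
          · exact Or.inr haC
          · exact Or.inr hcC
          · exact Or.inr hbC)
        ⟨t, by simp, ht⟩
      have hwt := (hwl.mem t).1 (by simp)
      have hwa := (hwl.mem a).1 (by simp)
      have hwb := (hwl.mem b).1 (by simp)
      have hwC : w ∉ C := hS.disjX w hw
      have hl := closed4 L hM.link hzt.symm hta hwt.symm htb h1 hwa.symm hwb h4
        (fun h => hwC (h ▸ hz)) h8
      exact h44 V G hM t w hwt.symm (link_dg L hl rfl) (link_dg L hwl rfl)
  · obtain ⟨a, c, d, b, hi, hm⟩ := rot5 h.cyc h' hz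
    rw [ind5_iff] at hi
    obtain ⟨h1, h2, h3, h4, h5, h6, h7, h8, h9, h10, h11, h12, h13, h14, h15⟩ := hi
    have haC : a ∈ C := (hm a).2 (by simp)
    have hcC : c ∈ C := (hm c).2 (by simp)
    have hdC : d ∈ C := (hm d).2 (by simp)
    have hbC : b ∈ C := (hm b).2 (by simp)
    have hta := hapex a haC h1
    have htb := hapex b hbC h5.symm
    have htc' : t ≠ c := fun h => htC (h ▸ hcC)
    have htd' : t ≠ d := fun h => htC (h ▸ hdC)
    by_cases htc : G.Adj t c
    · by_cases htd : G.Adj t d
      · have hl := closed5 L hM.link hzt.symm hta htc htd htb h1 h2 h3 h4 h5 h11 h12 h13 h14 h15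
        refine not_all_in_C hM h ht ?_
        intro x hx
        have := (hl.mem x).2 hx
        simp at this
        exact (hm x).2 this
      · obtain ⟨w, hw, hwl⟩ := small_of_min hsep hM h [t, c, d, b]
          ((ind4_iff _ _ _ _).2 ⟨htc, h3, h4, htb.symm, htd, h10, htd', h15⟩) (by simp)
          (by
            intro x hx
            simp at hx
            rcases hx with rfl | rfl | rfl | rfl
            · exact Or.inl ht
            · exact Or.inr hcC
            · exact Or.inr hdC
            · exact Or.inr hbC)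
          ⟨t, by simp, ht⟩
        have hwt := (hwl.mem t).1 (by simp)
        have hwc := (hwl.mem c).1 (by simp)
        have hwb := (hwl.mem b).1 (by simp)
        have hwC : w ∉ C := hS.disjX w hw
        have hl := closed5 L hM.link hzt.symm hta htc hwt.symm htb h1 h2 hwc.symm hwb h5
          h11 (fun h => hwC (h ▸ hz)) (fun h => hwC (h ▸ haC)) h14 h15
        exact h45 V G hM w t hwt (link_dg L hwl rfl) (link_dg L hl rfl)
    · by_cases htd : G.Adj t d
      · obtain ⟨w, hw, hwl⟩ := small_of_min hsep hM h [t, a, c, d]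
          ((ind4_iff _ _ _ _).2 ⟨hta, h2, h3, htd.symm, htc, h8, htc', h13⟩) (by simp)
          (by
            intro x hx
            simp at hx
            rcases hx with rfl | rfl | rfl | rfl
            · exact Or.inl ht
            · exact Or.inr haC
            · exact Or.inr hcC
            · exact Or.inr hdC)
          ⟨t, by simp, ht⟩
        have hwt := (hwl.mem t).1 (by simp)
        have hwa := (hwl.mem a).1 (by simp)
        have hwd := (hwl.mem d).1 (by simp)
        have hwC : w ∉ C := hS.disjX w hw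
        have hl := closed5 L hM.link hzt.symm hta hwt.symm htd htb h1 hwa.symm hwd h4 h5
          (fun h => hwC (h ▸ hz)) h12 h13 h14 (fun h => hwC (h ▸ hbC))
        exact h45 V G hM w t hwt (link_dg L hwl rfl) (link_dg L hl rfl)
      · obtain ⟨w, hw, hwl⟩ := small_of_min hsep hM h [t, a, c, d, b]
          ((ind5_iff _ _ _ _ _).2 ⟨hta, h2, h3, h4, htb.symm, htc, htd, h8, h9, h10,
            htc', htd', h13, h14, h15⟩) (by simp)
          (by
            intro x hx
            simp at hx
            rcases hx with rfl | rfl | rfl | rfl | rfl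
            · exact Or.inl ht
            · exact Or.inr haC
            · exact Or.inr hcC
            · exact Or.inr hdC
            · exact Or.inr hbC)
          ⟨t, by simp, ht⟩
        have hwt := (hwl.mem t).1 (by simp)
        have hwa := (hwl.mem a).1 (by simp)
        have hwb := (hwl.mem b).1 (by simp)
        have hwC : w ∉ C := hS.disjX w hw
        have hl := closed4 L hM.link hzt.symm hta hwt.symm htb h1 hwa.symm hwb h5
          (fun h => hwC (h ▸ hz)) h14
        exact h45 V G hM t w hwt.symm (link_dg L hl rfl) (link_dg L hwl rfl)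

/-- a common neighbour on the cycle of two vertices of the cycle is not adjacent to `t` -/
theorem mid_not_adj (hsep : SeparationStatement) (L : LinkApi) (h44 : No44Statement)
    (h45 : No45Statement) (hM : MinCE G) {C : List V} {X Y : Set V}
    (h : MinSide G C X Y) {x y z t : V} (hx : x ∈ C) (hy : y ∈ C) (hz : z ∈ C) (ht : t ∈ X)
    (hxy : x ≠ y) (hnxy : ¬ G.Adj x y) (hzx : G.Adj z x) (hzy : G.Adj z y)
    (htx : G.Adj t x) (hty : G.Adj t y) (hzC : ∀ v ∈ C, G.Adj z v → v = x ∨ v = y) :
    ¬ G.Adj t z := by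
  have := hM.fin
  intro htz
  have hS := h.sides
  have htC : t ∉ C := hS.disjX t ht
  obtain ⟨l0, hl0⟩ := hM.link z
  obtain ⟨l', hl, hlen⟩ := L.first V G z x t l0 hl0 hzx htz.symm htx.symm
  -- the third entry is `y`
  have hnd := hl.nodup
  have hlen4 := hl.len
  obtain ⟨q, r, rest, rfl⟩ : ∃ q r rest, l' = q :: r :: rest := by
    match l', hlen4 with
    | [], h => simp at h
    | [_], h => simp at h
    | q :: r :: rest, _ => exact ⟨q, r, rest, rfl⟩
  have hyl : y ∈ x :: t :: q :: r :: rest := (hl.mem y).2 hzy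
  have hq : q = y := by
    obtain ⟨j, hj, hjy⟩ := List.mem_iff_getElem.1 hyl
    have h1 := hl.adj 1 j (by simp) hj
    rw [hjy] at h1
    have h2 : CycAdj (x :: t :: q :: r :: rest).length 1 j := h1.1 (by simpa using hty)
    simp only [CycAdj, List.length_cons] at h2 hj
    have hj1 : j = 2 ∨ j = 0 := by
      rcases h2 with h2 | h2
      · left
        rw [h2]
        exact Nat.mod_eq_of_lt (by omega)
      · right
        by_cases hjj : j + 1 < rest.length + 1 + 1 + 1 + 1
        · rw [Nat.mod_eq_of_lt hjj] at h2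
          omega
        · have hjj' : j + 1 = rest.length + 1 + 1 + 1 + 1 := by omega
          rw [hjj', Nat.mod_self] at h2
          omega
    rcases hj1 with rfl | rfl
    · simpa using hjy
    · exfalso
      apply hxy
      simpa using hjy
  subst hq
  -- the rest is a chain of vertices outside the cycle
  have hchain : (r :: rest).IsChain G.Adj := by
    rw [List.isChain_iff_getElem]
    intro i hi
    have hi' : i + 1 < rest.length + 1 := by simpa using hi
    have h1 := (hl.adj (i + 3) (i + 4) (by simp only [List.length_cons]; omega)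
      (by simp only [List.length_cons]; omega)).2 (by
        left
        simp only [List.length_cons]
        exact (Nat.mod_eq_of_lt (by omega)).symm)
    simpa using h1
  have hmem : ∀ v ∈ r :: rest, v ∈ X ∨ v ∈ Y := by
    intro v hv
    have hvz : G.Adj z v := (hl.mem v).1 (by
      simp only [List.mem_cons] at hv ⊢
      tauto)
    rcases hS.cover v with h' | h'
    · exfalso
      rcases hzC v h' hvz with rfl | rfl
      · have : v ∉ t :: q :: r :: rest := (List.nodup_cons.1 hnd).1
        apply this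
        simp only [List.mem_cons] at hv ⊢
        tauto
      · have h3 := (List.nodup_cons.1 (List.nodup_cons.1 (List.nodup_cons.1 hnd).2).2).1
        exact h3 hv
    · exact h'
  have hallY : ∀ v ∈ r :: rest, v ∈ Y := by
    rcases chain_side hS _ hchain hmem with h' | h'
    · exfalso
      obtain ⟨y0, hy0, hzy0⟩ := hS.attY z hz
      have := (hl.mem y0).2 hzy0
      simp only [List.mem_cons] at this
      rcases this with rfl | rfl | rfl | h3
      · exact hS.disjY _ hy0 hx
      · exact hS.disj _ ht hy0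
      · exact hS.disjY _ hy0 hy
      · exact hS.disj _ (h' y0 (by simpa only [List.mem_cons] using h3)) hy0
    · exact h'
  have hin := inner_of_min hsep L h44 h45 hM h z hz
  have hle : dgIn G X z ≤ 1 := by
    unfold dgIn
    rw [Set.ncard_le_one (Set.toFinite _)]
    have key : ∀ v, v ∈ X ∧ G.Adj z v → v = t := by
      rintro v ⟨hv, hzv⟩
      have := (hl.mem v).2 hzv
      simp only [List.mem_cons] at this
      rcases this with rfl | rfl | rfl | h3
      · exact absurd hx (hS.disjX _ hv)
      · rfl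
      · exact absurd hy (hS.disjX _ hv)
      · exact absurd (hallY v (by simpa only [List.mem_cons] using h3)) (hS.disj v hv)
    intro a ha b hb
    rw [key a ha, key b hb]
  omega

theorem common_of_min (hsep : SeparationStatement) (L : LinkApi) (h44 : No44Statement)
    (h45 : No45Statement) (hM : MinCE G) {C : List V} {X Y : Set V}
    (h : MinSide G C X Y) : ∀ x ∈ C, ∀ y ∈ C, x ≠ y → ¬ G.Adj x y → ∀ t ∈ X,
      ¬ (G.Adj t x ∧ G.Adj t y) := by
  have := hM.fin
  rintro x hx y hy hxy hnxy t ht ⟨htx, hty⟩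
  have hS := h.sides
  have h4 := h.cyc.len
  have h5 := h.len
  have htC : t ∉ C := hS.disjX t ht
  -- one quadrilateral `x, t, y, z`
  have quad : ∀ z ∈ C, G.Adj z x → G.Adj z y → (∀ v ∈ C, G.Adj z v → v = x ∨ v = y) →
      ∃ w ∈ X, IsLink G w [x, t, y, z] := by
    intro z hz hzx hzy hzC
    have hntz := mid_not_adj hsep L h44 h45 hM h hx hy hz ht hxy hnxy hzx hzy htx hty hzC
    refine small_of_min hsep hM h [x, t, y, z]
      ((ind4_iff _ _ _ _).2 ⟨htx.symm, hty, hzy.symm, hzx, hnxy, hntz, hxy,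
        fun h => htC (h ▸ hz)⟩) (by simp) ?_ ⟨t, by simp, ht⟩
    intro v hv
    simp at hv
    rcases hv with rfl | rfl | rfl | rfl
    · exact Or.inr hx
    · exact Or.inl ht
    · exact Or.inr hy
    · exact Or.inr hz
  rcases (by omega : C.length = 4 ∨ C.length = 5) with h' | h'
  · obtain ⟨a, c, b, hi, hm⟩ := rot4 h.cyc h' hx
    rw [ind4_iff] at hi
    obtain ⟨h1, h2, h3, h4, h5, h6, h7, h8⟩ := hi
    have hyc : y = c := by
      rcases (hm y).1 hy with rfl | rfl | rfl | rfl
      · exact absurd rfl hxy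
      · exact absurd h1 hnxy
      · rfl
      · exact absurd h4.symm hnxy
    subst hyc
    have haC : a ∈ C := (hm a).2 (by simp)
    have hbC : b ∈ C := (hm b).2 (by simp)
    obtain ⟨w, hw, hwl⟩ := quad a haC h1.symm h2 (by
      intro v hv hav
      rcases (hm v).1 hv with rfl | rfl | rfl | rfl
      · exact Or.inl rfl
      · exact absurd hav (G.loopless.irrefl _)
      · exact Or.inr rfl
      · exact absurd hav h6)
    obtain ⟨w', hw', hwl'⟩ := quad b hbC h4 h3.symm (by
      intro v hv hbv
      rcases (hm v).1 hv with rfl | rfl | rfl | rfl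
      · exact Or.inl rfl
      · exact absurd hbv.symm h6
      · exact Or.inr rfl
      · exact absurd hbv (G.loopless.irrefl _))
    have hne : w ≠ w' := by
      rintro rfl
      have hwb : G.Adj w b := (hwl'.mem b).1 (by simp)
      have := (hwl.mem b).2 hwb
      simp at this
      rcases this with rfl | rfl | rfl | rfl
      · exact G.loopless.irrefl _ h4
      · exact htC hbC
      · exact G.loopless.irrefl _ h3
      · exact h8 rfl
    have hwt := (hwl.mem t).1 (by simp)
    have hwx := (hwl.mem x).1 (by simp)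
    have hwy := (hwl.mem y).1 (by simp)
    have hwt' := (hwl'.mem t).1 (by simp)
    have hwx' := (hwl'.mem x).1 (by simp)
    have hwy' := (hwl'.mem y).1 (by simp)
    have hl := closed4 L hM.link htx hwt.symm hty hwt'.symm hwx.symm hwy hwy'.symm hwx' hxy hne
    exact h44 V G hM t w hwt.symm (link_dg L hl rfl) (link_dg L hwl rfl)
  · -- the cycle in the order `x, z, y, z2, z3`
    obtain ⟨z, z2, z3, hi, hm⟩ : ∃ z z2 z3, IsIndCycle G [x, z, y, z2, z3] ∧
        ∀ v, v ∈ C ↔ (v = x ∨ v = z ∨ v = y ∨ v = z2 ∨ v = z3) := by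
      obtain ⟨a, c, d, b, hi, hm⟩ := rot5 h.cyc h' hx
      have hi' := (ind5_iff _ _ _ _ _).1 hi
      obtain ⟨h1, h2, h3, h4, h5, h6, h7, h8, h9, h10, h11, h12, h13, h14, h15⟩ := hi'
      rcases (hm y).1 hy with rfl | rfl | rfl | rfl | rfl
      · exact absurd rfl hxy
      · exact absurd h1 hnxy
      · exact ⟨a, d, b, hi, hm⟩
      · refine ⟨b, c, a, (ind5_iff _ _ _ _ _).2 ⟨h5.symm, h4.symm, h3.symm, h2.symm, h1.symm,
          h7, h6, fun h => h10 h.symm, fun h => h9 h.symm, fun h => h8 h.symm,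
          h12, h11, h15.symm, h14.symm, h13.symm⟩, ?_⟩
        intro v
        rw [hm v]
        tauto
      · exact absurd h5.symm hnxy
    rw [ind5_iff] at hi
    obtain ⟨h1, h2, h3, h4, h5, h6, h7, h8, h9, h10, h11, h12, h13, h14, h15⟩ := hi
    have hzC : z ∈ C := (hm z).2 (by simp)
    have hz2C : z2 ∈ C := (hm z2).2 (by simp)
    have hz3C : z3 ∈ C := (hm z3).2 (by simp)
    have htz2' : t ≠ z2 := fun h => htC (h ▸ hz2C)
    have htz3' : t ≠ z3 := fun h => htC (h ▸ hz3C)
    obtain ⟨w, hw, hwl⟩ := quad z hzC h1.symm h2 (by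
      intro v hv hzv
      rcases (hm v).1 hv with rfl | rfl | rfl | rfl | rfl
      · exact Or.inl rfl
      · exact absurd hzv (G.loopless.irrefl _)
      · exact Or.inr rfl
      · exact absurd hzv h8
      · exact absurd hzv h9)
    have hwC : w ∉ C := hS.disjX w hw
    have hwt := (hwl.mem t).1 (by simp)
    have hwx := (hwl.mem x).1 (by simp)
    have hwy := (hwl.mem y).1 (by simp)
    by_cases ht2 : G.Adj t z2
    · by_cases ht3 : G.Adj t z3
      · have hl := closed5 L hM.link htx hwt.symm hty ht2 ht3 hwx.symm hwy h3 h4 h5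
          hxy h12 (fun h => hwC (h ▸ hz2C)) (fun h => hwC (h ▸ hz3C)) h15
        exact h45 V G hM w t hwt (link_dg L hwl rfl) (link_dg L hl rfl)
      · obtain ⟨w2, hw2, hwl2⟩ := small_of_min hsep hM h [x, t, z2, z3]
          ((ind4_iff _ _ _ _).2 ⟨htx.symm, ht2, h4, h5, h7, ht3, h12, htz3'⟩) (by simp)
          (by
            intro v hv
            simp at hv
            rcases hv with rfl | rfl | rfl | rfl
            · exact Or.inr hx
            · exact Or.inl ht
            · exact Or.inr hz2C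
            · exact Or.inr hz3C)
          ⟨t, by simp, ht⟩
        have hw2t := (hwl2.mem t).1 (by simp)
        have hw2x := (hwl2.mem x).1 (by simp)
        have hw2z2 := (hwl2.mem z2).1 (by simp)
        have hw2C : w2 ∉ C := hS.disjX w2 hw2
        have hne : w ≠ w2 := by
          rintro rfl
          have := (hwl2.mem y).2 hwy
          simp at this
          rcases this with rfl | rfl | rfl | rfl
          · exact hxy rfl
          · exact htC hy
          · exact G.loopless.irrefl _ h3
          · exact h15 rfl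
        have hl := closed5 L hM.link htx hwt.symm hty ht2 hw2t.symm hwx.symm hwy h3
          hw2z2.symm hw2x hxy h12 (fun h => hwC (h ▸ hz2C)) hne (fun h => hw2C (h ▸ hy))
        exact h45 V G hM w t hwt (link_dg L hwl rfl) (link_dg L hl rfl)
    · by_cases ht3 : G.Adj t z3
      · obtain ⟨w2, hw2, hwl2⟩ := small_of_min hsep hM h [y, t, z3, z2]
          ((ind4_iff _ _ _ _).2 ⟨hty.symm, ht3, h4.symm, h3.symm, h10, ht2, h15, htz2'⟩)
          (by simp)
          (by
            intro v hv
            simp at hv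
            rcases hv with rfl | rfl | rfl | rfl
            · exact Or.inr hy
            · exact Or.inl ht
            · exact Or.inr hz3C
            · exact Or.inr hz2C)
          ⟨t, by simp, ht⟩
        have hw2t := (hwl2.mem t).1 (by simp)
        have hw2y := (hwl2.mem y).1 (by simp)
        have hw2z3 := (hwl2.mem z3).1 (by simp)
        have hw2C : w2 ∉ C := hS.disjX w2 hw2
        have hne : w ≠ w2 := by
          rintro rfl
          have := (hwl2.mem x).2 hwx
          simp at this
          rcases this with rfl | rfl | rfl | rfl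
          · exact hxy rfl
          · exact htC hx
          · exact G.loopless.irrefl _ h5
          · exact h12 rfl
        have hl := closed5 L hM.link hty hwt.symm htx ht3 hw2t.symm hwy.symm hwx h5.symm
          hw2z3.symm hw2y hxy.symm h15 (fun h => hwC (h ▸ hz3C)) hne (fun h => hw2C (h ▸ hx))
        exact h45 V G hM w t hwt (link_dg L hwl rfl) (link_dg L hl rfl)
      · obtain ⟨w2, hw2, hwl2⟩ := small_of_min hsep hM h [x, t, y, z2, z3]
          ((ind5_iff _ _ _ _ _).2 ⟨htx.symm, hty, h3, h4, h5, hnxy, h7, ht2, ht3, h10,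
            hxy, h12, htz2', htz3', h15⟩) (by simp)
          (by
            intro v hv
            simp at hv
            rcases hv with rfl | rfl | rfl | rfl | rfl
            · exact Or.inr hx
            · exact Or.inl ht
            · exact Or.inr hy
            · exact Or.inr hz2C
            · exact Or.inr hz3C)
          ⟨t, by simp, ht⟩
        have hw2t := (hwl2.mem t).1 (by simp)
        have hw2x := (hwl2.mem x).1 (by simp)
        have hw2y := (hwl2.mem y).1 (by simp)
        have hne : w ≠ w2 := by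
          rintro rfl
          have e1 := link_dg L hwl rfl
          have e2 := link_dg L hwl2 rfl
          simp at e1 e2
          omega
        have hl := closed4 L hM.link htx hwt.symm hty hw2t.symm hwx.symm hwy hw2y.symm hw2x
          hxy hne
        exact h44 V G hM t w hwt.symm (link_dg L hl rfl) (link_dg L hwl rfl)

/-! ## Existence of a small cycle -/

theorem dg_ge (L : LinkApi) (hM : MinCE G) (v : V) : 4 ≤ dg G v := by
  obtain ⟨l, hl⟩ := hM.link v
  rw [L.dg V G v l hl]
  exact hl.len

theorem exists_le_five (hM : MinCE G) : ∃ v, dg G v ≤ 5 := by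
  classical
  have := hM.fin
  have : Fintype V := Fintype.ofFinite V
  obtain ⟨v0⟩ := hM.conn.nonempty
  have hcard : 3 ≤ Nat.card V := by
    obtain ⟨l, hl⟩ := hM.link v0
    have h1 := hl.len
    have h2 := hl.nodup.length_le_card
    rw [Nat.card_eq_fintype_card]
    omega
  have hb := hM.bound G (fun v => some v) ⟨fun a => by
      have hs : ∀ x : ({v | some v = some a} : Set V), x = ⟨a, rfl⟩ := by
        rintro ⟨x, hx⟩
        have hx' : x = a := by simpa using hx
        exact Subtype.ext hx'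
      refine { preconnected := ?_, nonempty := ⟨⟨a, rfl⟩⟩ }
      intro x y
      rw [hs x, hs y],
    fun a b hab => ⟨a, b, rfl, rfl, hab⟩⟩ hM.conn hcard
  by_contra hcon
  push Not at hcon
  have hsum := G.sum_degrees_eq_twice_card_edges
  have hdeg : ∀ v, 6 ≤ G.degree v := by
    intro v
    have h1 := hcon v
    unfold dg at h1
    rw [Set.ncard_eq_toFinset_card'] at h1
    have h2 : (G.neighborSet v).toFinset.card = G.degree v := by
      rw [Set.toFinset_card, SimpleGraph.card_neighborSet_eq_degree]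
    omega
  have hE : G.edgeSet.ncard = G.edgeFinset.card := by
    rw [Set.ncard_eq_toFinset_card']
    rfl
  have hge : 6 * Fintype.card V ≤ ∑ v, G.degree v := by
    calc 6 * Fintype.card V = ∑ _v : V, 6 := by simp [mul_comm]
      _ ≤ ∑ v, G.degree v := Finset.sum_le_sum (fun v _ => hdeg v)
  rw [hsum] at hge
  rw [hE, Nat.card_eq_fintype_card] at hb
  omega

theorem exists_side (hsep : SeparationStatement) (L : LinkApi) (h44 : No44Statement)
    (hM : MinCE G) : ∃ (C : List V) (X Y : Set V), IsIndCycle G C ∧ C.length ≤ 5 ∧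
      Sides G C X Y ∧ 2 ≤ X.ncard := by
  have := hM.fin
  obtain ⟨v, hv⟩ := exists_le_five hM
  obtain ⟨C, hC⟩ := hM.link v
  have hlen : C.length ≤ 5 := by
    rw [← L.dg V G v C hC]
    exact hv
  obtain ⟨X, Y, hS⟩ := hsep V G hM C hC.toIsIndCycle
  by_cases hX : 2 ≤ X.ncard
  · exact ⟨C, X, Y, hC.toIsIndCycle, hlen, hS, hX⟩
  by_cases hY : 2 ≤ Y.ncard
  · exact ⟨C, Y, X, hC.toIsIndCycle, hlen, sides_symm hS, hY⟩
  exfalso
  obtain ⟨x, hx⟩ := hS.connX.nonempty
  obtain ⟨y, hy⟩ := hS.connY.nonempty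
  have hX1 : ∀ x' ∈ X, x' = x := fun x' hx' =>
    (Set.ncard_le_one (Set.toFinite X)).1 (by omega) x' hx' x hx
  have hY1 : ∀ y' ∈ Y, y' = y := fun y' hy' =>
    (Set.ncard_le_one (Set.toFinite Y)).1 (by omega) y' hy' y hy
  have hdg : ∀ z ∈ C, dg G z = 4 := by
    intro z hz
    apply le_antisymm _ (dg_ge L hM z)
    obtain ⟨a, b, _, _, _, _, hab⟩ := cyc_nbrs hC.toIsIndCycle hlen hz
    have hsub : G.neighborSet z ⊆ {a, b, x, y} := by
      intro u hu
      have hu' : G.Adj z u := hu
      rcases hS.cover u with h | h | h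
      · rcases hab u h hu' with rfl | rfl <;> simp
      · rw [hX1 u h]; simp
      · rw [hY1 u h]; simp
    calc dg G z ≤ ({a, b, x, y} : Set V).ncard := Set.ncard_le_ncard hsub (Set.toFinite _)
      _ ≤ 4 := by
        refine le_trans (Set.ncard_insert_le _ _) ?_
        refine le_trans (Nat.add_le_add_right (Set.ncard_insert_le _ _) 1) ?_
        refine le_trans (Nat.add_le_add_right (Nat.add_le_add_right
          (Set.ncard_insert_le _ _) 1) 1) ?_
        simp
  obtain ⟨c0, hc0⟩ : ∃ c0, c0 ∈ C := by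
    have := hC.len
    match C, this with
    | c :: _, _ => exact ⟨c, by simp⟩
  obtain ⟨a, _, haC, _, hadj, _, _⟩ := cyc_nbrs hC.toIsIndCycle hlen hc0
  exact h44 V G hM c0 a hadj (hdg c0 hc0) (hdg a haC)

theorem exists_minSide (hsep : SeparationStatement) (L : LinkApi) (h44 : No44Statement)
    (hM : MinCE G) : ∃ (C : List V) (X Y : Set V), MinSide G C X Y := by
  classical
  have hex : ∃ n, ∃ (C : List V) (X Y : Set V), IsIndCycle G C ∧ C.length ≤ 5 ∧
      Sides G C X Y ∧ 2 ≤ X.ncard ∧ X.ncard = n := by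
    obtain ⟨C, X, Y, h1, h2, h3, h4⟩ := exists_side hsep L h44 hM
    exact ⟨X.ncard, C, X, Y, h1, h2, h3, h4, rfl⟩
  obtain ⟨C, X, Y, h1, h2, h3, h4, h5⟩ := Nat.find_spec hex
  refine ⟨C, X, Y, h1, h2, h3, h4, ?_⟩
  intro C' X' Y' g1 g2 g3 g4
  rw [h5]
  exact Nat.find_min' hex ⟨C', X', Y', g1, g2, g3, g4, rfl⟩

/-- C6: innermost regions exist. -/
theorem region (hsep : SeparationStatement) (heul : SideEulerStatement) (h44 : No44Statement)
    (h45 : No45Statement) (L : LinkApi) : RegionStatement := by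
  intro V G hM
  obtain ⟨C, X, Y, h⟩ := exists_minSide hsep L h44 hM
  have hS := h.sides
  refine ⟨C, X, ?_⟩
  exact
    { cyc := h.cyc
      len := h.len
      disj := hS.disjX
      nbr := by
        intro x hx y hxy
        rcases hS.cover y with h' | h' | h'
        · exact Or.inr h'
        · exact Or.inl h'
        · exact absurd hxy (hS.sep x hx y h')
      out := by
        intro z hz
        obtain ⟨y, hy, hzy⟩ := hS.attY z hz
        exact ⟨y, hzy, fun h' => hS.disj y h' hy, hS.disjY y hy⟩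
      small := small_of_min hsep hM h
      common := common_of_min hsep L h44 h45 hM h
      inner := inner_of_min hsep L h44 h45 hM h
      no44 := fun u _ v _ huv => h44 V G hM u v huv
      no45 := fun u _ v _ huv => h45 V G hM u v huv
      euler := heul V G hM C X Y h.cyc hS }

end StrongArb.H48
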